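import Mathlib

namespace Pool.Agent.Results.MP_fce458_co.Upper

/-- all edges between `A` in part `a` and `B` in part `b` have colour `col` -/
def Mono {n : ℕ} (c : Sym2 (Fin 6 × Fin n) → Bool) (a b : Fin 6) (A B : Finset (Fin n))
    (col : Bool) : Prop :=
  ∀ x ∈ A, ∀ y ∈ B, c s((a, x), (b, y)) = col

/-- the colouring has a canonical monochromatic copy of the `t`-blowup of a triangle -/
def HasCopy {n : ℕ} (c : Sym2 (Fin 6 × Fin n) → Bool) (t : ℕ) : Prop :=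
  ∃ a b d : Fin 6, a ≠ b ∧ a ≠ d ∧ b ≠ d ∧ ∃ A B D : Finset (Fin n),
    A.card = t ∧ B.card = t ∧ D.card = t ∧
    ∃ col, Mono c a b A B col ∧ Mono c a d A D col ∧ Mono c b d B D col

def Good (n t : ℕ) : Prop := ∀ c : Sym2 (Fin 6 × Fin n) → Bool, HasCopy c t

theorem pig {α β : Type} [DecidableEq β] (A : Finset α) (f : α → β) (L : Finset β)
    (hL : L.Nonempty) (hf : ∀ a ∈ A, f a ∈ L) (t : ℕ) (h : L.card * t ≤ A.card) :
    ∃ y ∈ L, ∃ A' ⊆ A, A'.card = t ∧ ∀ a ∈ A', f a = y := by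
  obtain ⟨y, hy, h'⟩ := Finset.exists_le_card_fiber_of_mul_le_card_of_maps_to hf hL h
  obtain ⟨A', h1, h2⟩ := Finset.exists_subset_card_eq h'
  exact ⟨y, hy, A', fun a ha => (Finset.mem_filter.1 (h1 ha)).1, h2,
    fun a ha => (Finset.mem_filter.1 (h1 ha)).2⟩

theorem hom {n : ℕ} (c : Sym2 (Fin 6 × Fin n) → Bool) (a b : Fin 6) (A B : Finset (Fin n))
    (m : ℕ) (h : 2 ^ A.card * m ≤ B.card) :
    ∃ B' ⊆ B, B'.card = m ∧ ∃ v : Fin n → Bool, ∀ x ∈ A, ∀ y ∈ B', c s((a, x), (b, y)) = v x := by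
  classical
  obtain ⟨w, _, B', h1, h2, h3⟩ := pig B (fun y => fun x : A => c s((a, x.1), (b, y)))
    Finset.univ Finset.univ_nonempty (fun _ _ => Finset.mem_univ _) m (by simpa using h)
  refine ⟨B', h1, h2, fun x => if hx : x ∈ A then w ⟨x, hx⟩ else true, fun x hx y hy => ?_⟩
  simp only [hx, dif_pos]
  exact congrFun (h3 y hy) ⟨x, hx⟩

theorem Mono.anti {n : ℕ} {c : Sym2 (Fin 6 × Fin n) → Bool} {a b : Fin 6}
    {A B A' B' : Finset (Fin n)} {col : Bool} (h : Mono c a b A B col) (hA : A' ⊆ A)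
    (hB : B' ⊆ B) : Mono c a b A' B' col := fun x hx y hy => h x (hA hx) y (hB hy)

theorem stage {n : ℕ} (c : Sym2 (Fin 6 × Fin n) → Bool) (t : ℕ) (o i j k : Fin 6)
    (h1 : o ≠ i) (h2 : o ≠ j) (h3 : o ≠ k) (h4 : i ≠ j) (h5 : i ≠ k) (h6 : j ≠ k)
    (O I J K : Finset (Fin n)) (hO : O.card = t) (hI : 3 * t ≤ I.card)
    (hJ : 2 ^ (5 * t) * (3 * t) ≤ J.card) (hK : 2 ^ (5 * t) * (3 * t) ≤ K.card) (col : Bool)
    (mI : Mono c o i O I col) (mJ : Mono c o j O J col) (mK : Mono c o k O K col) :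
    HasCopy c t := by
  classical
  obtain ⟨I1, sI, cI⟩ := Finset.exists_subset_card_eq hI
  have p1 : 2 ^ (3 * t) ≤ 2 ^ (5 * t) := Nat.pow_le_pow_right (by norm_num) (by omega)
  have p2 : 2 ^ (5 * t) = 2 ^ (3 * t) * 2 ^ (2 * t) := by rw [← pow_add]; congr 1; omega
  have p3 : 1 ≤ 2 ^ (2 * t) := Nat.one_le_two_pow
  obtain ⟨J1, sJ, cJ, v, hv⟩ := hom c i j I1 J (2 * t)
    (by rw [cI]; exact le_trans (Nat.mul_le_mul p1 (by omega)) hJ)
  obtain ⟨K1, sK, cK, w, hw⟩ := hom c i k I1 K (2 ^ (2 * t) * t)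
    (by
      rw [cI, ← mul_assoc, ← p2]
      exact le_trans (Nat.mul_le_mul_left _ (by omega)) hK)
  obtain ⟨K2, sK2, cK2, u, hu⟩ := hom c j k J1 K1 t (by rw [cJ, cK])
  obtain ⟨q, _, J2, sJ2, cJ2, hq⟩ := pig J1 u Finset.univ Finset.univ_nonempty
    (fun _ _ => Finset.mem_univ _) t (by simp [cJ])
  have mJK : Mono c j k J2 K2 q := fun x hx y hy => (hu x (sJ2 hx) y hy).trans (hq x hx)
  by_cases e : q = col
  · exact ⟨o, j, k, h2, h3, h6, O, J2, K2, hO, cJ2, cK2, col,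
      mJ.anti (le_refl _) (sJ2.trans sJ), mK.anti (le_refl _) (sK2.trans sK), e ▸ mJK⟩
  obtain ⟨r, _, I2, sI2, cI2, hr⟩ := pig I1
    (fun x => if v x = col then (0 : Fin 3) else if w x = col then 1 else 2)
    Finset.univ Finset.univ_nonempty (fun _ _ => Finset.mem_univ _) t (by simp [cI])
  have flip : ∀ z : Bool, z ≠ col → z = q := by
    intro z hz
    revert e hz
    cases z <;> cases q <;> cases col <;> simp
  have hr3 : ∀ r : Fin 3, r = 0 ∨ r = 1 ∨ r = 2 := by decide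
  rcases hr3 r with rfl | rfl | rfl
  · refine ⟨o, i, j, h1, h2, h4, O, I2, J2, hO, cI2, cJ2, col,
      mI.anti (le_refl _) (sI2.trans sI), mJ.anti (le_refl _) (sJ2.trans sJ), fun x hx y hy => ?_⟩
    rw [hv x (sI2 hx) y (sJ2 hy)]
    have := hr x hx
    by_contra g
    rw [if_neg g] at this
    split_ifs at this <;> exact absurd this (by decide)
  · refine ⟨o, i, k, h1, h3, h5, O, I2, K2, hO, cI2, cK2, col,
      mI.anti (le_refl _) (sI2.trans sI), mK.anti (le_refl _) (sK2.trans sK), fun x hx y hy => ?_⟩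
    rw [hw x (sI2 hx) y (sK2 hy)]
    have := hr x hx
    by_contra g
    rw [if_neg g] at this
    split_ifs at this <;> exact absurd this (by decide)
  · refine ⟨i, j, k, h4, h5, h6, I2, J2, K2, cI2, cJ2, cK2, q, fun x hx y hy => ?_,
      fun x hx y hy => ?_, mJK⟩
    · rw [hv x (sI2 hx) y (sJ2 hy)]
      refine flip _ fun g => ?_
      have := hr x hx
      rw [if_pos g] at this
      exact absurd this (by decide)
    · rw [hw x (sI2 hx) y (sK2 hy)]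
      refine flip _ fun g => ?_
      have := hr x hx
      rw [if_pos g] at this
      split_ifs at this <;> exact absurd this (by decide)

def opts (c0 : Bool) : Finset (Fin 5 × Fin 5 × Fin 5 × Bool) :=
  Finset.univ.filter fun p => p.1 < p.2.1 ∧ p.2.1 < p.2.2.1 ∧
    ((p.1 = 0 ∧ p.2.2.2 = c0) ∨ (p.1 ≠ 0 ∧ p.2.2.2 ≠ c0))

theorem opts_card : ∀ c0, (opts c0).card = 10 := by decide +kernel

theorem opts_cover : ∀ v : Fin 5 → Bool, ∃ p ∈ opts (v 0),
    v p.1 = p.2.2.2 ∧ v p.2.1 = p.2.2.2 ∧ v p.2.2.1 = p.2.2.2 := by decide +kernel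

theorem good (t n : ℕ) (hn : n = 3 * t * 2 ^ (15 * t)) : Good n t := by
  classical
  intro c
  have hu : (Finset.univ : Finset (Fin n)).card = n := by simp
  rcases Nat.eq_zero_or_pos t with rfl | ht
  · exact ⟨0, 1, 2, by decide, by decide, by decide, ∅, ∅, ∅, rfl, rfl, rfl, true,
      by simp [Mono], by simp [Mono], by simp [Mono]⟩
  have p1 : 2 ^ (15 * t) = 2 ^ (6 * t) * 2 ^ (9 * t) := by rw [← pow_add]; congr 1; omega
  have p2 : 2 ^ (15 * t) = 2 ^ (10 * t) * 2 ^ (5 * t) := by rw [← pow_add]; congr 1; omega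
  have p3 : 2 ^ 2 ≤ 2 ^ (9 * t) := Nat.pow_le_pow_right (by norm_num) (by omega)
  have p4 : 1 ≤ 2 ^ (6 * t) := Nat.one_le_two_pow
  have p5 : 1 ≤ 2 ^ (5 * t) := Nat.one_le_two_pow
  have q1 : 2 ^ (6 * t) * (10 * t) ≤ n := by
    rw [hn, p1]
    calc 2 ^ (6 * t) * (10 * t) ≤ 2 ^ (6 * t) * (3 * t * 2 ^ 2) := Nat.mul_le_mul_left _ (by omega)
      _ ≤ 2 ^ (6 * t) * (3 * t * 2 ^ (9 * t)) := by gcongr
      _ = _ := by ring
  have q2 : 6 * t ≤ n := le_trans (by nlinarith) q1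
  obtain ⟨B, _, cB⟩ := Finset.exists_subset_card_eq (s := (Finset.univ : Finset (Fin n)))
    (n := 6 * t) (by rw [hu]; exact q2)
  obtain ⟨A, _, cA, v, hv⟩ := hom c 1 0 B Finset.univ (10 * t) (by rw [cB, hu]; exact q1)
  obtain ⟨c0, _, B0, sB0, cB0, hc0⟩ := pig B v Finset.univ Finset.univ_nonempty
    (fun _ _ => Finset.mem_univ _) (3 * t) (by simp [cB]; omega)
  have hrest : ∀ j : Fin 5, ∃ D : Finset (Fin n), 3 * t ≤ D.card ∧
      (j ≠ 0 → 2 ^ (5 * t) * (3 * t) ≤ D.card) ∧ ∃ w : Fin n → Bool, (j = 0 → ∀ x, w x = c0) ∧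
      ∀ x ∈ A, ∀ y ∈ D, c s((0, x), (j.succ, y)) = w x := by
    intro j
    by_cases hj : j = 0
    · subst hj
      refine ⟨B0, cB0.ge, fun h => absurd rfl h, fun _ => c0, fun _ _ => rfl, fun x hx y hy => ?_⟩
      rw [Sym2.eq_swap]
      exact (hv y (sB0 hy) x hx).trans (hc0 y hy)
    · obtain ⟨D, _, cD, w, hw⟩ := hom c 0 j.succ A Finset.univ (2 ^ (5 * t) * (3 * t))
        (by rw [cA, hu, hn, p2]; exact le_of_eq (by ring))
      exact ⟨D, by rw [cD]; nlinarith, fun _ => cD.ge, w, fun h => absurd h hj, hw⟩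
  choose D d1 d2 w w1 w2 using hrest
  choose f f1 f2 using fun x : Fin n => opts_cover (fun j => w j x)
  obtain ⟨p, hp, O, sO, cO, hO⟩ := pig A f (opts c0)
    (Finset.card_pos.1 (by rw [opts_card]; norm_num))
    (fun x _ => by have := f1 x; rwa [w1 0 rfl x] at this) t (by rw [opts_card, cA])
  obtain ⟨l1, l2, _⟩ := (Finset.mem_filter.1 hp).2
  refine stage c t 0 p.1.succ p.2.1.succ p.2.2.1.succ (Fin.succ_ne_zero _).symm
    (Fin.succ_ne_zero _).symm (Fin.succ_ne_zero _).symm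
    (fun h => l1.ne (Fin.succ_injective _ h)) (fun h => (l1.trans l2).ne (Fin.succ_injective _ h))
    (fun h => l2.ne (Fin.succ_injective _ h)) O (D p.1) (D p.2.1) (D p.2.2.1) cO (d1 _)
    (d2 _ (Fin.pos_iff_ne_zero.1 (lt_of_le_of_lt (Fin.zero_le _) l1)))
    (d2 _ (Fin.pos_iff_ne_zero.1 (lt_of_le_of_lt (Fin.zero_le _) l2))) p.2.2.2 ?_ ?_ ?_
  · intro x hx y hy
    rw [w2 _ x (sO hx) y hy, ← hO x hx]
    exact (f2 x).1
  · intro x hx y hy
    rw [w2 _ x (sO hx) y hy, ← hO x hx]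
    exact (f2 x).2.1
  · intro x hx y hy
    rw [w2 _ x (sO hx) y hy, ← hO x hx]
    exact (f2 x).2.2

theorem result (t : ℕ) : Good (3 * t * 2 ^ (15 * t)) t :=
  good t _ rfl

end Pool.Agent.Results.MP_fce458_co.Upper
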